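import Pool.Agent.U554.TD.SerThree

/-!
# The algebraic Sato-Tate conjecture and the cubics `∑ x_i y_j z_l = 1`

Let `k ⊆ ℂ` be a finitely generated field, `ℓ` a prime.

* `𝓒` is an abelian category of mixed motives over `k` with weight filtration (for example Nori motives),
  `gr c : 𝓒 ⥤ 𝓢` is the functor `M ↦ (gr_{-2 c}^W M)(-c)` with values in the category `𝓢` of pure
  (André) motives of weight `0`, and `O b m X`, for the separated schemes `X` of finite type over `k`, is the Borel-Moore
  homology motive `H_{m + 2 b}(X)(-b)`. If `X` is smooth of pure dimension `n`, this is `H^{2 j - m}(X)(j)`,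
  `j = n - b`.
* `Realization`: `F M` is the `ℓ`-adic realization of `M` with the action of the Galois group, and `betti M` is the
  image of the rational Betti realization `ω(M) ⊆ ω(M) ⊗ ℚ_ℓ = F M`.
* `SatoTate S M`: the Galois representation `F M` is semisimple, and its space of invariants (Tate classes) is spanned by
  elements of `ω(M)`.

A reductive subgroup `G` of `GL(ω(M) ⊗ ℚ_ℓ)` is defined over `ℚ` if and only if its invariants in the tensor constructions
of `ω(M)` are spanned by elements of these `ℚ`-vector spaces. The invariants of `G_{1, ℓ, k}(M)` in a tensor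
construction of even weight `2 c` are, up to the twist by `c`, the Tate classes, and those of odd weight are `0`. Hence
the algebraic Sato-Tate conjecture Q1 for `k`, `ℓ` (and all `M`) is `SatoTate` for all motives of weight `0`, and for the
`H^{2 j}(V)(j)`, `V` smooth projective.

Let `T` be a trilinear form in three blocks `x`, `y`, `z` of `a₁`, `a₂`, `a₃` variables; `hypS T` is the smooth affine
cubic hypersurface `Y_T : T(x, y, z) = 1` of dimension `a₁ + a₂ + a₃ - 1`, and `tripS k G`, for a finite set `G` of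
triples, is `Y_G : ∑_{(i, j, l) ∈ G} x_i y_j z_l = 1`.
-/

set_option autoImplicit false

open CategoryTheory AlgebraicGeometry MvPolynomial Pool.Agent.Y116.UV Pool.Agent.U554.TU
  Pool.Agent.U554.TW Pool.Agent.U554.TD Pool.Agent.U483.GU

universe v u v' u' w

namespace Pool.Agent.Results.MP_92d903_ag.UnboundedDegrees

/-- An additive realization with values in the vector spaces over `K`, with natural actions of the elements of `Γ` and
natural subgroups. -/
structure Realization (K : Type w) [Field K] (𝓢 : Type u) [Category.{v} 𝓢] [Abelian 𝓢] where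
  /-- the `ℓ`-adic realization -/
  F : 𝓢 ⥤ ModuleCat.{w} K
  [additive : F.Additive]
  /-- the Galois group -/
  Γ : Type
  /-- the action -/
  act : Γ → (F ⟶ F)
  /-- the rational classes -/
  betti : ∀ M : 𝓢, AddSubgroup (F.obj M)
  betti_map : ∀ {M N : 𝓢} (f : M ⟶ N), ∀ x ∈ betti M, (F.map f).hom x ∈ betti N

attribute [instance] Realization.additive

section

variable {K : Type w} [Field K] {𝓢 : Type u} [Category.{v} 𝓢] [Abelian 𝓢] (S : Realization K 𝓢)

/-- The Tate classes: the invariants of `Γ` in `F M`. -/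
def Realization.tate (M : 𝓢) : Submodule K (S.F.obj M) where
  carrier := {x | ∀ γ, ((S.act γ).app M).hom x = x}
  add_mem' := by
    intro a b ha hb γ
    rw [map_add, ha γ, hb γ]
  zero_mem' := fun γ => map_zero _
  smul_mem' := by
    intro c x hx γ
    rw [map_smul, hx γ]

/-- The span of the rational Tate classes. -/
def Realization.rational (M : 𝓢) : Submodule K (S.F.obj M) :=
  Submodule.span K {x | x ∈ S.betti M ∧ x ∈ S.tate M}

/-- The subspace is stable under `Γ`. -/
def Realization.Stable {M : 𝓢} (W : Submodule K (S.F.obj M)) : Prop :=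
  ∀ γ, ∀ x ∈ W, ((S.act γ).app M).hom x ∈ W

/-- **The algebraic Sato-Tate property of `M`**: every stable subspace of `F M` has a stable complement, and the Tate
classes are spanned by rational classes. -/
def SatoTate (M : 𝓢) : Prop :=
  (∀ W : Submodule K (S.F.obj M), S.Stable W → ∃ W' : Submodule K (S.F.obj M), S.Stable W' ∧ IsCompl W W') ∧
    S.rational M = S.tate M

lemma act_map {M N : 𝓢} (f : M ⟶ N) (γ : S.Γ) (x : S.F.obj M) :
    ((S.act γ).app N).hom ((S.F.map f).hom x) = (S.F.map f).hom (((S.act γ).app M).hom x) := by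
  have h := (S.act γ).naturality f
  have h1 := congrArg (fun u => u.hom x) h
  simpa using h1

lemma tate_map {M N : 𝓢} (f : M ⟶ N) (x : S.F.obj M) (hx : x ∈ S.tate M) : (S.F.map f).hom x ∈ S.tate N := by
  intro γ
  rw [act_map, hx γ]

/-- The two subspaces. -/
def spaces : TwoSpaces K 𝓢 where
  F := S.F
  one := S.rational
  two := S.tate
  one_map f x hx := by
    have h : S.rational _ ≤ (S.rational _).comap (S.F.map f).hom :=
      Submodule.span_le.mpr fun y hy => Submodule.subset_span ⟨S.betti_map f y hy.1, tate_map S f y hy.2⟩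
    exact h hx
  two_map f x hx := tate_map S f x hx

lemma satoTate_retract {M N : 𝓢} (r : Retract M N) (h : SatoTate S N) : SatoTate S M := by
  have key : ∀ x, (S.F.map r.r).hom ((S.F.map r.i).hom x) = x := by
    intro x
    have h1 : S.F.map r.i ≫ S.F.map r.r = 𝟙 _ := by rw [← S.F.map_comp, r.retract, S.F.map_id]
    have h2 := congrArg (fun u => u.hom x) h1
    simpa using h2
  refine ⟨fun W hW => ?_, (spaces S).isAdditive.factor ⟨r⟩ h.2⟩
  obtain ⟨C, hC, hcompl⟩ := h.1 (W.map (S.F.map r.i).hom) (by
    rintro γ _ ⟨x, hx, rfl⟩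
    exact ⟨_, hW γ x hx, (act_map S r.i γ x).symm⟩)
  refine ⟨C.comap (S.F.map r.i).hom, fun γ x hx => ?_, ?_, ?_⟩
  · change (S.F.map r.i).hom _ ∈ C
    rw [← act_map]
    exact hC γ _ hx
  · rw [Submodule.disjoint_def]
    intro x hx hx'
    have h1 : (S.F.map r.i).hom x = 0 :=
      (Submodule.disjoint_def.mp hcompl.disjoint) _ ⟨x, hx, rfl⟩ hx'
    rw [← key x, h1, map_zero]
  · rw [codisjoint_iff, eq_top_iff]
    intro x _
    have h1 : (S.F.map r.i).hom x ∈ W.map (S.F.map r.i).hom ⊔ C := by
      rw [codisjoint_iff.mp hcompl.codisjoint]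
      trivial
    obtain ⟨_, ⟨y, hy, rfl⟩, c, hc, hyc⟩ := Submodule.mem_sup.mp h1
    refine Submodule.mem_sup.mpr ⟨y, hy, x - y, ?_, add_sub_cancel y x⟩
    change (S.F.map r.i).hom (x - y) ∈ C
    rw [map_sub, ← hyc, add_sub_cancel_left]
    exact hc

end

variable {𝓒 : Type u} [Category.{v} 𝓒] [Abelian 𝓒] {𝓢 : Type u'} [Category.{v'} 𝓢] [Abelian 𝓢]
  {K : Type w} [Field K] {k : Type} [Field k]

/-- The known properties: the properties `IsAbTheory` of the motives `H_{m + 2 b}(X)(-b)` (isomorphic schemes, long exact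
sequences, zero in small weights, homotopy invariance, Jouanolou's bundles, restriction from `X × 𝔾_m`) and

* `torsor`: homotopy invariance for affine bundles;
* `jouanolou`: smooth separated schemes of finite type have affine bundles with affine total space
  (Jouanolou, Thomason);
* `boundary`: `H_{m + 2 b}(X)(-b)` is a direct factor of the motive of `X × 𝔾_m` in the degree `m + 1`;
* `resolution`: if the Sato-Tate property is true for `H^{2 j}(V)(j)` for all smooth
  projective `V` and all `j`, then for all graded parts of even weight of all motives of all `X` (Hironaka, Deligne: the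
  graded parts are direct factors of twists of the cohomology of smooth projective schemes). -/
structure IsMixedTheory (S : Realization K 𝓢) (gr : ℤ → 𝓒 ⥤ 𝓢) (O : ℤ → ℤ → Sch k → 𝓒) : Prop
    extends IsAbTheory O where
  torsor : BundleInvariant (abRel 𝓒) O
  jouanolou : ∀ X : Sch k, FT True X → Smooth X.hom → HasAffineBundle X
  boundary : ∀ (A : Type) [CommRing A] [Algebra k A] [Algebra.FiniteType k A] (b m : ℤ),
    Nonempty (Retract (O b m (aff k A)) (O b (m + 1) (aff k (LaurentPolynomial A))))
  resolution : (∀ V : Sch k, SmoothProjective V → ∀ b : ℤ, SatoTate S ((gr 0).obj (O b 0 V))) →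
    ∀ X : Sch k, FT True X → ∀ b m c : ℤ, SatoTate S ((gr c).obj (O b m X))

omit [Abelian 𝓒] in
lemma inherited (S : Realization K 𝓢) (gr : 𝓒 ⥤ 𝓢) :
    Inherited (abRel 𝓒) fun M => SatoTate S (gr.obj M) := by
  rintro X Y ⟨r⟩ hY
  exact satoTate_retract S (r.map gr) hY

/-- **The algebraic Sato-Tate conjecture and the cubics `∑ x_i y_j z_l = 1`.** Let `D` be a set of integers which is not
bounded above, and `s` a number. The following are equivalent:

1. (Q1 for `k` and `ℓ`) the Sato-Tate property for all `H^{2 j}(V)(j)`, `V` smooth projective over `k`;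
2. the same for all graded parts of even weight of all cohomology and Borel-Moore homology motives of all separated
   schemes of finite type over `k`;
3. the same for the part of weight `0` of `H^{2 j - n}(Y_T)(j)` for all `T`, all `j ≥ s` and all `n` in `D`;
4. (if `k = ℚ`) the same for `Y_G` for all finite sets `G` of triples. -/
theorem result (S : Realization K 𝓢) (gr : ℤ → 𝓒 ⥤ 𝓢) (O : ℤ → ℤ → Sch k → 𝓒) (hO : IsMixedTheory S gr O)
    (D : Set ℤ) (hD : ∀ N : ℤ, ∃ n ∈ D, N ≤ n) (s : ℕ) :
    List.TFAE [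
      ∀ V : Sch k, SmoothProjective V → ∀ b : ℤ, SatoTate S ((gr 0).obj (O b 0 V)),
      ∀ X : Sch k, FT True X → ∀ b m c : ℤ, SatoTate S ((gr c).obj (O b m X)),
      ∀ (a₁ a₂ a₃ : ℕ) (T : Fin a₁ → Fin a₂ → Fin a₃ → k) (j : ℕ), s ≤ j → ∀ n ∈ D,
        SatoTate S ((gr 0).obj (O (a₁ + a₂ + a₃ - 1 - j) n (hypS T)))] ∧
    (Nonempty (ℚ ≃+* k) →
      ((∀ V : Sch k, SmoothProjective V → ∀ b : ℤ, SatoTate S ((gr 0).obj (O b 0 V))) ↔
        ∀ (a₁ a₂ a₃ : ℕ) (G : Finset (Fin a₁ × Fin a₂ × Fin a₃)) (j : ℕ), s ≤ j → ∀ n ∈ D,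
          SatoTate S ((gr 0).obj (O (a₁ + a₂ + a₃ - 1 - j) n (tripS k G))))) := by
  have hy : ∀ (C : Set k), 0 ∈ C → 1 ∈ C → Presents C →
      (∀ (a₁ a₂ a₃ : ℕ) (T : Fin a₁ → Fin a₂ → Fin a₃ → k), (∀ i j l, T i j l ∈ C) →
        ∀ j : ℕ, s ≤ j → ∀ n ∈ D, SatoTate S ((gr 0).obj (O (a₁ + a₂ + a₃ - 1 - j) n (hypS T)))) →
      ∀ V : Sch k, SmoothProjective V → ∀ b : ℤ, SatoTate S ((gr 0).obj (O b 0 V)) :=
    fun C h0 h1 hC h V hV b => of_unbounded hO.toIsAbTheory hO.torsor hO.boundary (inherited S (gr 0)) D hD s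
      h0 h1 hC h V hV.ft (hO.jouanolou V hV.ft hV.smooth) b 0
  constructor
  · tfae_have 1 → 2 := hO.resolution
    tfae_have 2 → 3 := fun h a₁ a₂ a₃ T j _ n _ => h _ (ft_aff True) _ _ _
    tfae_have 3 → 1 := fun h =>
      hy Set.univ trivial trivial presents_univ fun a₁ a₂ a₃ T _ j hj => h a₁ a₂ a₃ T j hj
    tfae_finish
  · intro hk
    constructor
    · intro h a₁ a₂ a₃ G j _ n _
      obtain ⟨T, -, hG⟩ := trip_hyp (R := k) G
      rw [← hG]
      exact hO.resolution h _ (ft_aff True) _ _ _
    · intro h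
      refine hy {0, 1} (Or.inl rfl) (Or.inr rfl) (presents_rat hk) (fun a₁ a₂ a₃ T hT' j hj => ?_)
      obtain ⟨G, hG⟩ := hyp_zero_one T hT'
      rw [hG]
      exact h a₁ a₂ a₃ G j hj

end Pool.Agent.Results.MP_92d903_ag.UnboundedDegrees
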